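import Pool.Agent.H94.OD.Thm

/-!
# MP_bbfc69_co, Q1: Ore-type oriented discrepancy of Hamilton cycles

For every `n ≥ 3` and every oriented graph `D` on `n` vertices with `s*(D) ≥ 0` there is a
Hamilton oriented cycle `C` in `D` with `σ_max(C) ≥ ⌈(n + s*(D)) / 2⌉`.
-/

namespace Pool.Agent.Results.MP_bbfc69_co.OreDiscrepancy

/-- An oriented graph with vertex type `V`: a loopless digraph in which any two distinct vertices
are joined by at most one arc. -/
structure OGraph (V : Type*) where
  /-- `arc u v`: there is an arc from `u` to `v` -/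
  arc : V → V → Prop
  loopless : ∀ v, ¬ arc v v
  one_arc : ∀ u v, u ≠ v → arc u v → ¬ arc v u

namespace OGraph

variable {V : Type*}

/-- `u` and `v` are adjacent: they are joined by an arc in one of the two directions. -/
def Joined (D : OGraph V) (u v : V) : Prop := D.arc u v ∨ D.arc v u

variable [Fintype V]

/-- The degree of `x`: the number of vertices joined to `x` by an arc in either direction. -/
noncomputable def deg (D : OGraph V) (x : V) : ℕ := {y : V | D.Joined x y}.ncard

/-- The set of all values `d(u) + d(v) - n` over pairs of distinct non-adjacent vertices. -/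
def oreValues (D : OGraph V) : Set ℤ :=
  {z : ℤ | ∃ u v : V, u ≠ v ∧ ¬ D.Joined u v ∧ z = (D.deg u : ℤ) + D.deg v - Fintype.card V}

open Classical in
/-- `s*(D)`: the least value of `d(u) + d(v) - n` over non-adjacent pairs if there is such a pair,
and `n - 2` if `D` is a tournament. -/
noncomputable def sStar (D : OGraph V) : ℤ :=
  if D.oreValues.Nonempty then sInf D.oreValues else (Fintype.card V : ℤ) - 2

/-- A Hamilton oriented cycle together with a traversal `v_0 v_1 … v_{n-1} v_0`: a cyclic
enumeration of all the vertices (indices modulo `n`) such that consecutive vertices are joined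
by an arc. -/
structure HamCycle (D : OGraph V) where
  /-- the vertex with index `i` -/
  vert : ZMod (Fintype.card V) ≃ V
  joined : ∀ i, D.Joined (vert i) (vert (i + 1))

/-- `σ⁺(C)`: the number of forward arcs. -/
noncomputable def HamCycle.sigmaPlus {D : OGraph V} (C : D.HamCycle) : ℕ :=
  {i : ZMod (Fintype.card V) | D.arc (C.vert i) (C.vert (i + 1))}.ncard

/-- `σ⁻(C)`: the number of backward arcs. -/
noncomputable def HamCycle.sigmaMinus {D : OGraph V} (C : D.HamCycle) : ℕ :=
  {i : ZMod (Fintype.card V) | D.arc (C.vert (i + 1)) (C.vert i)}.ncard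

/-- `σ_max(C) = max (σ⁺(C), σ⁻(C))`. -/
noncomputable def HamCycle.sigmaMax {D : OGraph V} (C : D.HamCycle) : ℕ :=
  max C.sigmaPlus C.sigmaMinus

/-! ### Sanity check: `sStar` is a minimum -/

theorem oreValues_finite (D : OGraph V) : D.oreValues.Finite := by
  refine (Set.finite_range (fun p : V × V =>
    (D.deg p.1 : ℤ) + D.deg p.2 - Fintype.card V)).subset ?_
  rintro z ⟨u, v, -, -, rfl⟩
  exact ⟨(u, v), rfl⟩

/-- If there is a non-adjacent pair, then `s*(D)` is attained and is the least value. -/
theorem sStar_isLeast (D : OGraph V) (h : D.oreValues.Nonempty) :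
    IsLeast D.oreValues D.sStar := by
  unfold sStar
  rw [if_pos h]
  exact ⟨h.csInf_mem D.oreValues_finite, fun z hz => csInf_le D.oreValues_finite.bddBelow hz⟩

omit [Fintype V] in
theorem arc_asymm (D : OGraph V) (u v : V) (h : D.arc u v) : ¬ D.arc v u := by
  by_cases huv : u = v
  · subst huv; exact fun _ => D.loopless _ h
  · exact D.one_arc u v huv h

end OGraph

open Pool.Agent.H94.OD

open Classical in
theorem deg_add {V : Type*} [Fintype V] (D : OGraph V) (x : V) :
    D.deg x + (nn D.arc Finset.univ x).card + 1 = Fintype.card V := by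
  have hx : ¬ Adj D.arc x x := by
    rintro (h | h) <;> exact D.loopless _ h
  have h1 : D.deg x = (Finset.univ.filter (fun y => Adj D.arc x y)).card := by
    unfold OGraph.deg
    rw [← Set.ncard_coe_finset]
    congr 1
    ext y
    rw [Finset.mem_coe, Finset.mem_filter]
    exact ⟨fun h => ⟨Finset.mem_univ y, h⟩, fun h => h.2⟩
  have h2 : (Finset.univ.filter (fun y => ¬ Adj D.arc x y)) =
      insert x (nn D.arc Finset.univ x) := by
    ext y
    simp only [nn, Finset.mem_filter, Finset.mem_univ, true_and, Finset.mem_insert]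
    by_cases hy : y = x
    · subst hy; simp [hx]
    · simp [hy]
  have h3 : x ∉ nn D.arc Finset.univ x := by simp [nn]
  have h4 := Finset.card_filter_add_card_filter_not (s := (Finset.univ : Finset V))
    (fun y => Adj D.arc x y)
  rw [h2, Finset.card_insert_of_notMem h3, Finset.card_univ] at h4
  omega

/-- **Q1 of MP_bbfc69_co, answered in the affirmative.** -/
theorem result (V : Type*) [Fintype V] (D : OGraph V) (hn : 3 ≤ Fintype.card V)
    (hs : 0 ≤ D.sStar) :
    ∃ C : D.HamCycle, ⌈((Fintype.card V : ℚ) + (D.sStar : ℚ)) / 2⌉ ≤ (C.sigmaMax : ℤ) := by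
  classical
  have hA : ∀ u v, D.arc u v → ¬ D.arc v u := D.arc_asymm
  -- the bound on the numbers of non-neighbours
  have hsum : ∀ u v : V, u ≠ v → ¬ Adj D.arc u v →
      ((nn D.arc Finset.univ u).card : ℤ) + (nn D.arc Finset.univ v).card + 2 + D.sStar
        ≤ Fintype.card V := by
    intro u v hne hna
    have hmem : (D.deg u : ℤ) + D.deg v - Fintype.card V ∈ D.oreValues := ⟨u, v, hne, hna, rfl⟩
    have h1 := (D.sStar_isLeast ⟨_, hmem⟩).2 hmem
    have h2 := deg_add D u
    have h3 := deg_add D v
    omega
  have hs2 : D.sStar ≤ (Fintype.card V : ℤ) - 2 := by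
    by_cases h : D.oreValues.Nonempty
    · obtain ⟨u, v, hne, hna, hz⟩ := (D.sStar_isLeast h).1
      have h2 := deg_add D u
      have h3 := deg_add D v
      omega
    · unfold OGraph.sStar
      rw [if_neg h]
  obtain ⟨s, hs'⟩ : ∃ s : ℕ, D.sStar = s := ⟨D.sStar.toNat, by omega⟩
  -- a cycle with few backward arcs
  have key : ∃ l, Cyc D.arc l ∧ l.toFinset = Finset.univ ∧
      cb D.arc l ≤ (Fintype.card V - s) / 2 := by
    have hO : Ore D.arc Finset.univ ((Fintype.card V - s) / 2) := by
      intro u _ v _ hne hna
      have := hsum u v hne hna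
      omega
    by_cases h : 2 * ((Fintype.card V - s) / 2) + 1 ≤ Fintype.card V
    · exact main hA (by omega) (Fintype.card V - (2 * ((Fintype.card V - s) / 2) + 1))
        Finset.univ (by rw [Finset.card_univ]; omega) hO
    · obtain ⟨l, h1, h2⟩ := ore (A := D.arc) Finset.univ (by rw [Finset.card_univ]; omega) (by
        intro u _ v _ hne hna
        have := hsum u v hne hna
        rw [Finset.card_univ]
        omega)
      obtain ⟨l', h3, h4, h5⟩ := better hA h1
      refine ⟨l', h3, h4.trans h2, ?_⟩
      have := h1.card_toFinset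
      rw [h2, Finset.card_univ] at this
      omega
  obtain ⟨l, hc, hl, hcb⟩ := key
  obtain ⟨v, hv1, hv2⟩ := exists_enum hc hl rfl
  refine ⟨⟨v, hv1⟩, ?_⟩
  set C : D.HamCycle := ⟨v, hv1⟩ with hC
  have h5 : C.sigmaMinus = cb D.arc l := hv2
  have h6 : C.sigmaPlus + C.sigmaMinus = Fintype.card V := by
    have : NeZero (Fintype.card V) := ⟨by omega⟩
    unfold OGraph.HamCycle.sigmaPlus OGraph.HamCycle.sigmaMinus
    have e : {i : ZMod (Fintype.card V) | D.arc (C.vert (i + 1)) (C.vert i)} =
        {i : ZMod (Fintype.card V) | D.arc (C.vert i) (C.vert (i + 1))}ᶜ := by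
      ext i
      simp only [Set.mem_ofPred_eq, Set.mem_compl_iff]
      constructor
      · intro h; exact hA _ _ h
      · intro h
        rcases C.joined i with h' | h'
        · exact absurd h' h
        · exact h'
    rw [e, Set.ncard_add_ncard_compl, Nat.card_eq_fintype_card, ZMod.card]
  have h7 : C.sigmaPlus ≤ C.sigmaMax := le_max_left _ _
  rw [Int.ceil_le, hs']
  have h8 : (Fintype.card V + s : ℕ) ≤ 2 * C.sigmaMax := by omega
  have h9 : ((Fintype.card V : ℚ) + s) ≤ 2 * C.sigmaMax := by exact_mod_cast h8
  push_cast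
  linarith

end Pool.Agent.Results.MP_bbfc69_co.OreDiscrepancy
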